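import Pool.Agent.H21.Mst

set_option autoImplicit false

namespace Pool.Agent.Results.MP_620d87_co.NoSwitch

open Matrix Pool.Agent.H21.Mst

variable {n : ℕ}

def PST (r : Fin n → Fin n → Prop) (a b : Fin n) : Prop := ∃ (t : ℝ) (l : ℂ), ‖l‖ = 1 ∧
  NormedSpace.exp ((t : ℂ) • skew r) *ᵥ Pi.single a 1 = l • Pi.single b 1

/-- the signed permutation matrix sending `e_j` to `d j • e_(σ j)` -/
def sp (σ : Equiv.Perm (Fin n)) (d : Fin n → ℂ) : Matrix (Fin n) (Fin n) ℂ :=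
  Matrix.of fun i j => if i = σ j then d j else 0

def Switch (r : Fin n → Fin n → Prop) (σ : Equiv.Perm (Fin n)) : Prop :=
  ∃ d : Fin n → ℂ, (∀ j, d j = 1 ∨ d j = -1) ∧ (sp σ d)ᵀ * skew r * sp σ d = skew r

def f (v : Fin 72) : ℤ := ∑ u, Z v u ^ 2 * ∑ w, Z u w ^ 2

theorem inv (σ : Equiv.Perm (Fin 72)) (h : Switch r σ) (v : Fin 72) : f (σ v) = f v := by
  obtain ⟨d, h1, h2⟩ := h
  have k : ∀ u w, Z (σ u) (σ w) ^ 2 = Z u w ^ 2 := fun u w => by
    have := congrFun (congrFun h2 u) w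
    simp only [skew_eq, sp, mul_apply, transpose_apply, of_apply, ite_mul, zero_mul, mul_ite,
      mul_zero, Finset.sum_ite_eq', Finset.mem_univ, if_true] at this
    have e : ((Z (σ u) (σ w) ^ 2 : ℤ) : ℂ) = (Z u w ^ 2 : ℤ) := by
      push_cast
      rw [← this]
      rcases h1 u with a | a <;> rcases h1 w with b | b <;> rw [a, b] <;> ring
    exact_mod_cast e
  rw [f, f, ← Equiv.sum_comp σ]
  refine Finset.sum_congr rfl fun u _ => ?_
  rw [k, ← Equiv.sum_comp σ]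
  simp only [k]

theorem result : ∃ (n : ℕ) (r : Fin n → Fin n → Prop) (S : Finset (Fin n)),
    (∀ u v, r u v → ¬ r v u) ∧ 3 ≤ S.card ∧ (∀ a ∈ S, ∀ b ∈ S, a ≠ b → PST r a b) ∧
      ¬ ∃ σ, ∃ a ∈ S, Switch r σ ∧ PST r a (σ a) ∧ ∀ b ∈ S, ∃ k : ℕ, b = (σ ^ k) a := by
  refine ⟨72, r, Finset.univ.image a, asym, by decide +kernel, ?_, ?_⟩
  · simp only [Finset.forall_mem_image]
    intro s _ s' _ _
    obtain ⟨t, h⟩ := pst s s'
    exact ⟨t, 1, by simp, by rw [one_smul, h]⟩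
  · rintro ⟨σ, x, -, h, -, k⟩
    have l : ∀ m : ℕ, f ((σ ^ m) x) = f x := fun m => by
      induction m with
      | zero => rfl
      | succ m ih => rw [pow_succ', Equiv.Perm.mul_apply, inv σ h, ih]
    obtain ⟨m0, h0⟩ := k (a 0) (by simp)
    obtain ⟨m1, h1⟩ := k (a 1) (by simp)
    exact (by decide +kernel : f (a 0) ≠ f (a 1)) (by rw [h0, h1, l, l])

end Pool.Agent.Results.MP_620d87_co.NoSwitch
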